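import Pool.Agent.Helper75.SR.Goals2
import Pool.Agent.Helper54.SRD.Basic

/-! Packet SR-GTransFrame for `MP_d08e19_gt`. -/

namespace Helper98.SR

open scoped ContDiff Topology Manifold Matrix
open Set Real Pool.Agent.Helper54.SRD Pool.Agent.Helper75.SR

variable {E : Type} [NormedAddCommGroup E] [NormedSpace ℝ E]
variable {M : Type} [TopologicalSpace M] [ChartedSpace E M] [IsManifold 𝓘(ℝ, E) ∞ M]

theorem contDiffAt_fderiv_tr {x y : M} {z : E} (h : z ∈ ov x y) :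
    ContDiffAt ℝ ∞ (fderiv ℝ (tr x y : E → E)) z :=
  (contDiffAt_tr h).fderiv_right (by simp)

theorem hasFDerivAt_fderiv_tr {x y : M} {z : E} (h : z ∈ ov x y) :
    HasFDerivAt (fderiv ℝ (tr x y : E → E)) (fderiv ℝ (fderiv ℝ (tr x y : E → E)) z) z :=
  ((contDiffAt_fderiv_tr h).differentiableAt (by simp)).hasFDerivAt

/-- transformation of `φ_a` -/
theorem phi_trans (S : ASas E M) {x y : M} {z : E} (h : z ∈ ov x y) (a : Fin 3) (u : E) :
    fderiv ℝ (tr x y) z ((S.loc x).phi a z u) =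
      (S.loc y).phi a (tr x y z) (fderiv ℝ (tr x y) z u) := by
  have hz : z ∈ tgt E x := h.1
  have hz' : tr x y z ∈ tgt E y := (tr_mem h).1
  have hxi : HasFDerivAt ((S.loc x).xi a) (fderiv ℝ ((S.loc x).xi a) z) z :=
    ((((S.loc x).xi_smooth a).contDiffAt ((isOpen_tgt x).mem_nhds hz)).differentiableAt
      (by simp)).hasFDerivAt
  have hxi' : HasFDerivAt ((S.loc y).xi a) (fderiv ℝ ((S.loc y).xi a) (tr x y z)) (tr x y z) :=
    ((((S.loc y).xi_smooth a).contDiffAt ((isOpen_tgt y).mem_nhds hz')).differentiableAt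
      (by simp)).hasFDerivAt
  have h1 : HasFDerivAt (fun z => fderiv ℝ (tr x y) z ((S.loc x).xi a z)) _ z :=
    (hasFDerivAt_fderiv_tr h).clm_apply hxi
  have h2 : HasFDerivAt (fun z => (S.loc y).xi a (tr x y z))
      ((fderiv ℝ ((S.loc y).xi a) (tr x y z)).comp (fderiv ℝ (tr x y) z)) z :=
    hxi'.comp z (differentiableAt_tr h).hasFDerivAt
  have h3 : (fun z => fderiv ℝ (tr x y) z ((S.loc x).xi a z)) =ᶠ[𝓝 z]
      (fun z => (S.loc y).xi a (tr x y z)) := by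
    filter_upwards [(isOpen_ov x y).mem_nhds h] with w hw
    exact S.xi_trans x y w hw a
  have h4 := h1.unique (h2.congr_of_eventuallyEq h3)
  have h5 := congrArg (fun L : E →L[ℝ] E => L u) h4
  simp only [_root_.add_apply, ContinuousLinearMap.comp_apply,
    ContinuousLinearMap.flip_apply] at h5
  have h6 := S.Gam_trans x y z h u ((S.loc x).xi a z)
  unfold LocSas.phi
  rw [phiOf_apply, phiOf_apply, map_neg, map_add, h6, ← S.xi_trans x y z h a, ← h5]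
  abel

theorem gTransFrame : GTransFrame := by
  intro E _ _ _ M _ _ _ S β γ τ w t x₀ e₀ hγ hx₀ hb he₀ hhor hnorm hvel hD
  refine ⟨hγ, fun x hx => ?_⟩
  set z₀ := bx E γ x₀ t with hz₀
  have hz : z₀ ∈ ov x₀ x := mem_ov hx₀ hx
  have hbxt : bx E γ x t = tr x₀ x z₀ := by
    rw [hz₀]
    unfold bx
    rw [tr_ch hx₀]
  have hev : bx E γ x =ᶠ[𝓝 t] (tr x₀ x) ∘ (bx E γ x₀) := by
    filter_upwards [hγ.preimage_mem_nhds ((isOpen_src x₀).mem_nhds hx₀)] with s hs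
    show ch x (γ s) = tr x₀ x (ch x₀ (γ s))
    rw [tr_ch hs]
  have hc2 : ContDiffAt ℝ 2 (bx E γ x) t := by
    refine ContDiffAt.congr_of_eventuallyEq ?_ hev
    exact ((contDiffAt_tr hz).of_le ENat.LEInfty.out).comp t hb
  have hb1 : ContDiffAt ℝ 1 (bx E γ x₀) t := hb.of_le (by norm_num)
  have hbd : HasDerivAt (bx E γ x₀) (deriv (bx E γ x₀) t) t :=
    (hb1.differentiableAt (by norm_num)).hasDerivAt
  have hed : HasDerivAt e₀ (deriv e₀ t) t := (he₀.differentiableAt (by norm_num)).hasDerivAt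
  have hce : ContDiffAt ℝ 1 (fun s => fderiv ℝ (tr x₀ x) (bx E γ x₀ s) (e₀ s)) t := by
    have h1 : ContDiffAt ℝ 1 (fun s => fderiv ℝ (tr x₀ x) (bx E γ x₀ s)) t :=
      ((contDiffAt_fderiv_tr hz).of_le (by exact_mod_cast le_top)).comp t hb1
    exact h1.clm_apply he₀
  have hvx : deriv (bx E γ x) t = fderiv ℝ (tr x₀ x) z₀ (deriv (bx E γ x₀) t) := by
    rw [hev.deriv_eq]
    exact ((differentiableAt_tr hz).hasFDerivAt.comp_hasDerivAt t hbd).deriv
  have hde : deriv (fun s => fderiv ℝ (tr x₀ x) (bx E γ x₀ s) (e₀ s)) t =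
      fderiv ℝ (fderiv ℝ (tr x₀ x)) z₀ (deriv (bx E γ x₀) t) (e₀ t) +
        fderiv ℝ (tr x₀ x) z₀ (deriv e₀ t) := by
    have h1 : HasDerivAt (fun s => fderiv ℝ (tr x₀ x) (bx E γ x₀ s))
        (fderiv ℝ (fderiv ℝ (tr x₀ x)) z₀ (deriv (bx E γ x₀) t)) t :=
      (hasFDerivAt_fderiv_tr hz).comp_hasDerivAt t hbd
    exact (h1.clm_apply hed).deriv
  refine ⟨hc2, hce, ?_, ?_, ?_, ?_, ?_⟩
  · intro i
    rw [hbxt, ← S.xi_trans x₀ x z₀ hz i, ← S.g_trans x₀ x z₀ hz]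
    exact hhor i
  · rw [hbxt, ← S.g_trans x₀ x z₀ hz]
    exact hnorm
  · rw [hvx, hvel, map_add, map_smul, map_smul, S.xi_trans x₀ x z₀ hz, hbxt]
  · have h1 := S.Gam_trans x₀ x z₀ hz (deriv (bx E γ x₀) t) (e₀ t)
    have h2 := congrArg (fderiv ℝ (tr x₀ x) z₀) hD
    unfold LocSas.D at h2 ⊢
    rw [hbxt, hvx, hde]
    rw [map_add, h1, map_smul, phi_trans S hz] at h2
    rw [← h2]
    abel
  · intro y hy
    have hzy : z₀ ∈ ov x₀ y := mem_ov hx₀ hy
    have hzxy : tr x₀ x z₀ ∈ ov x y := by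
      rw [← hbxt]
      exact mem_ov hx hy
    have h1 : HasFDerivAt (tr x y ∘ tr x₀ x : E → E)
        ((fderiv ℝ (tr x y) (tr x₀ x z₀)).comp (fderiv ℝ (tr x₀ x) z₀)) z₀ :=
      (differentiableAt_tr hzxy).hasFDerivAt.comp z₀ (differentiableAt_tr hz).hasFDerivAt
    have h2 : (tr x₀ y : E → E) =ᶠ[𝓝 z₀] (tr x y ∘ tr x₀ x : E → E) := by
      filter_upwards [(isOpen_ov x₀ x).mem_nhds hz] with v hv
      show ch y (chi x₀ v) = ch y (chi x (tr x₀ x v))
      rw [chi_tr hv]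
    have h3 := (h1.congr_of_eventuallyEq h2).fderiv
    show fderiv ℝ (tr x₀ y) z₀ (e₀ t) =
      fderiv ℝ (tr x y) (bx E γ x t) (fderiv ℝ (tr x₀ x) z₀ (e₀ t))
    rw [h3, hbxt]
    rfl

end Helper98.SR
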